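import Pool.Agent.H2.GH3

namespace Pool.Agent.Results.MP_029391_gt.NoTriple
open Pool.Agent.H2.GH3

theorem result : ∃ (X₁ X₂ X₃ : Type) (_ : MetricSpace X₁) (_ : MetricSpace X₂) (_ : MetricSpace X₃),
    Nonempty X₁ ∧ Nonempty X₂ ∧ Nonempty X₃ ∧ CompactSpace X₁ ∧ CompactSpace X₂ ∧
    CompactSpace X₃ ∧ ¬ CC X₁ X₂ X₃ :=
  ⟨A₁.X, A₂.X, A₃.X, inferInstance, inferInstance, inferInstance, inferInstance, inferInstance,
    inferInstance, inferInstance, inferInstance, inferInstance, not_CC⟩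

end Pool.Agent.Results.MP_029391_gt.NoTriple
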